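import Pool.Agent.FGT.Stmts

/-!
Squad FGT, row TYI: type I (infinitely many classes) is impossible.
-/

namespace Pool.Agent.FGT.H23

open Filter Topology Pool.Agent.FGT

open scoped Pointwise

universe u

section Basic

variable {L : Type u} [Group L] {α : L →* Equiv.Perm ℤ} {I : (ℤ → ℝ) → ℝ}

/-- the class of `x` in the orbit of `z` -/
def Cl (α : L →* Equiv.Perm ℤ) (I : (ℤ → ℝ) → ℝ) (z x : ℤ) : Set ℤ :=
  {y | (∃ g : L, α g z = y) ∧ kk α I x y = DD α I z}

theorem mul_ap (g h : L) (j : ℤ) : α (g * h) j = α g (α h j) := by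
  rw [map_mul]
  rfl

theorem one_ap (j : ℤ) : α 1 j = j := by
  rw [map_one]
  rfl

theorem inv_ap (g : L) (j : ℤ) : α g⁻¹ (α g j) = j := by
  rw [← mul_ap, inv_mul_cancel, one_ap]

theorem ap_inv (g : L) (j : ℤ) : α g (α g⁻¹ j) = j := by
  rw [← mul_ap, mul_inv_cancel, one_ap]

theorem fg_map {G H : Type*} [Group G] [Group H] (f : G →* H) {K : Subgroup G} (hK : K.FG) :
    (K.map f).FG := by
  classical
  obtain ⟨S, hS⟩ := hK
  refine ⟨S.image f, ?_⟩
  rw [Finset.coe_image, ← MonoidHom.map_closure, hS]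

/-- the non-splitting property at all points of the orbit, for normal subgroups -/
theorem ns_point {z : ℤ} (hns : NS α z) (h : L) (K : Subgroup L) (hK : K.FG)
    (hKi : (K : Set L).Infinite) (N : Subgroup L) (hN : N.Normal) (hNf : N.FiniteIndex) :
    ∃ g ∈ N, (orb α K (α g (α h z))).Infinite := by
  obtain ⟨g, hg, hinf⟩ := hns (K.map (MulAut.conj h⁻¹).toMonoidHom) (fg_map _ hK) (by
    rw [Subgroup.coe_map]
    exact hKi.image (MulAut.conj h⁻¹).injective.injOn) N hNf
  refine ⟨h * g * h⁻¹, hN.conj_mem g hg h, ?_⟩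
  have h1 : orb α (K.map (MulAut.conj h⁻¹).toMonoidHom) (α g z) ⊆
      (α h⁻¹) '' orb α K (α (h * g * h⁻¹) (α h z)) := by
    rintro j ⟨k', hk', rfl⟩
    obtain ⟨k, hk, rfl⟩ := Subgroup.mem_map.mp hk'
    refine ⟨α k (α (h * g * h⁻¹) (α h z)), ⟨k, hk, rfl⟩, ?_⟩
    have e1 : (MulAut.conj h⁻¹).toMonoidHom k = h⁻¹ * k * h := by
      show h⁻¹ * k * (h⁻¹)⁻¹ = h⁻¹ * k * h
      rw [inv_inv]
    rw [e1]
    simp only [← mul_ap]
    congr 2
    group
  exact (hinf.mono h1).of_image _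

end Basic

section Main

variable {L : Type u} [Group L] {α : L →* Equiv.Perm ℤ} {I : (ℤ → ℝ) → ℝ}

/-- the classes have the same mass -/
theorem cl_mass (kra : KraStmt.{u}) (hα : BDp α) (hI : IsMean I) (z : ℤ) (g : L) :
    ms I (Cl α I z (α g z)) = ms I (Cl α I z z) := by
  obtain ⟨h1, h2, h3, h4, -, -, -⟩ := kra L α hα I hI
  obtain ⟨R, hR⟩ := hα g
  rw [← hI.ms_perm (α g) R hR (Cl α I z z)]
  congr 1
  ext y
  constructor
  · rintro ⟨⟨h, rfl⟩, hy⟩
    refine ⟨α (g⁻¹ * h) z, ⟨⟨_, rfl⟩, ?_⟩, ?_⟩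
    · rw [← hy, ← h2 g z, mul_ap, ap_inv]
    · rw [← mul_ap, mul_inv_cancel_left]
  · rintro ⟨x, ⟨⟨h, rfl⟩, hy⟩, rfl⟩
    refine ⟨⟨g * h, mul_ap _ _ _⟩, ?_⟩
    rw [h2, hy]

/-- infinitely many classes: many pairwise inequivalent points -/
theorem many_classes (kra : KraStmt.{u}) (hα : BDp α) (hI : IsMean I) (z : ℤ)
    (hinf : ¬ ∃ F : Finset ℤ, ∀ g : L, ∃ f ∈ F, (∃ h : L, α h z = f) ∧
      kk α I (α g z) f = DD α I z) (n : ℕ) :
    ∃ F : Finset ℤ, F.card = n ∧ (∀ f ∈ F, ∃ g : L, α g z = f) ∧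
      ∀ f ∈ F, ∀ f' ∈ F, f ≠ f' → kk α I f f' ≠ DD α I z := by
  classical
  obtain ⟨h1, h2, h3, h4, -, -, -⟩ := kra L α hα I hI
  induction n with
  | zero =>
    exact ⟨∅, rfl, fun f hf => absurd hf (Finset.notMem_empty f),
      fun f hf => absurd hf (Finset.notMem_empty f)⟩
  | succ n ih =>
    obtain ⟨F, hc, hF, hne⟩ := ih
    have h5 : ∃ g : L, ∀ f ∈ F, kk α I (α g z) f ≠ DD α I z := by
      by_contra hcon
      push Not at hcon
      apply hinf
      refine ⟨F, fun g => ?_⟩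
      obtain ⟨f, hf, hk⟩ := hcon g
      exact ⟨f, hf, hF f hf, hk⟩
    obtain ⟨g, hg⟩ := h5
    have h6 : α g z ∉ F := by
      intro h
      apply hg _ h
      rw [h4, h1]
    refine ⟨insert (α g z) F, ?_, ?_, ?_⟩
    · rw [Finset.card_insert_of_notMem h6, hc]
    · intro f hf
      rcases Finset.mem_insert.mp hf with rfl | hf
      · exact ⟨g, rfl⟩
      · exact hF f hf
    · intro f hf f' hf' hff
      rcases Finset.mem_insert.mp hf with rfl | hf
      · rcases Finset.mem_insert.mp hf' with rfl | hf'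
        · exact absurd rfl hff
        · exact hg f' hf'
      · rcases Finset.mem_insert.mp hf' with rfl | hf'
        · rw [h3]
          exact hg f hf
        · exact hne f hf f' hf' hff

/-- the classes have mass zero -/
theorem cl_zero (kra : KraStmt.{u}) (eqv : EqvStmt.{u}) (hα : BDp α) (hI : IsMean I) (z : ℤ)
    (hinf : ¬ ∃ F : Finset ℤ, ∀ g : L, ∃ f ∈ F, (∃ h : L, α h z = f) ∧
      kk α I (α g z) f = DD α I z) (g : L) : ms I (Cl α I z (α g z)) = 0 := by
  obtain ⟨h1, h2, h3, h4, -, -, -⟩ := kra L α hα I hI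
  rw [cl_mass kra hα hI]
  by_contra hne
  have hpos : 0 < ms I (Cl α I z z) := lt_of_le_of_ne (hI.ms_nonneg _) (Ne.symm hne)
  obtain ⟨n, hn⟩ := exists_nat_gt (1 / ms I (Cl α I z z))
  obtain ⟨F, hc, hF, hFF⟩ := many_classes kra hα hI z hinf n
  have h5 := hI.card_le F (fun f => Cl α I z f) (by
    intro f hf f' hf' hff
    rw [Set.disjoint_left]
    rintro y ⟨⟨a, rfl⟩, hy⟩ ⟨-, hy'⟩
    obtain ⟨b, rfl⟩ := hF f hf
    obtain ⟨c, rfl⟩ := hF f' hf'
    apply hFF _ hf _ hf' hff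
    have h6 := eqv L α hα I hI (α b z) (α a z) (α c z) (by rw [h1, h1]) (by rw [h1, h1])
      (by rw [hy, h1]) (by rw [h3, hy', h1])
    rw [h6, h1]) (ms I (Cl α I z z)) (by
    intro f hf
    obtain ⟨b, rfl⟩ := hF f hf
    rw [cl_mass kra hα hI])
  rw [hc] at h5
  rw [div_lt_iff₀ hpos] at hn
  linarith

/-- the main step -/
theorem exists_split (dns : DnsStmt.{u}) (kra : KraStmt.{u}) (eqv : EqvStmt.{u}) (hL : Good L)
    (hα : BDp α) (hI : IsMean I) (z : ℤ) (hns : NS α z)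
    (hinf : ¬ ∃ F : Finset ℤ, ∀ g : L, ∃ f ∈ F, (∃ h : L, α h z = f) ∧
      kk α I (α g z) f = DD α I z) (a : L) (M : Subgroup L) (hM : M.Normal) (hMf : M.FiniteIndex)
    (g : L) (hg : g ≠ 1) : ∃ n ∈ M, kk α I (α g (α n (α a z))) (α n (α a z)) ≠ DD α I z := by
  obtain ⟨h1, h2, h3, h4, -, -, -⟩ := kra L α hα I hI
  by_contra hcon
  push Not at hcon
  have hD : ∀ b : L, DD α I (α b (α a z)) = DD α I z := fun b => by rw [h1, h1]
  -- the subgroup of the elements preserving the classes of the points of `M x`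
  let N₁ : Subgroup L :=
    { carrier := {h | ∀ n ∈ M, kk α I (α h (α n (α a z))) (α n (α a z)) = DD α I z}
      one_mem' := by
        intro n _
        rw [one_ap, h4, hD]
      mul_mem' := by
        intro h h' hh hh' n hn
        have e1 : kk α I (α (h * h') (α n (α a z))) (α h (α n (α a z))) = DD α I z := by
          rw [mul_ap, h2]
          exact hh' n hn
        have e2 := hh n hn
        have e3 : DD α I (α (h * h') (α n (α a z))) = DD α I z := by rw [h1, hD]
        have e4 := eqv L α hα I hI (α (h * h') (α n (α a z))) (α h (α n (α a z)))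
          (α n (α a z)) (by rw [e3, h1, hD]) (by rw [e3, hD]) (by rw [e3, e1]) (by rw [e3, e2])
        rw [e4, e3]
      inv_mem' := by
        intro h hh n hn
        rw [← h2 h, ap_inv, h3]
        exact hh n hn }
  have hN₁ : ∀ h : L, h ∈ N₁ ↔ ∀ n ∈ M, kk α I (α h (α n (α a z))) (α n (α a z)) = DD α I z :=
    fun h => Iff.rfl
  have hgN : g ∈ N₁ := hcon
  have hnorm : ∀ m ∈ M, ∀ h ∈ N₁, m * h * m⁻¹ ∈ N₁ := by
    intro m hm h hh n hn
    have e1 := hh (m⁻¹ * n) (M.mul_mem (M.inv_mem hm) hn)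
    rw [← h2 m] at e1
    simp only [← mul_ap] at e1 ⊢
    rw [← e1]
    congr 2
    · group
    · group
  by_cases hfin : (N₁ : Set L).Finite
  · -- `N₁` finite: the centralizer of `g` in `M` has finite index
    have hMinf : (M : Set L).Infinite := by
      intro hMfin
      haveI := hL.inf
      haveI : Finite M := hMfin
      haveI := hMf
      have : Finite L := by
        have e1 := M.card_mul_index
        have e2 : Nat.card M ≠ 0 := Nat.card_pos.ne'
        have e3 : M.index ≠ 0 := hMf.index_ne_zero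
        exact Nat.finite_of_card_ne_zero (by rw [← e1]; exact mul_ne_zero e2 e3)
      exact not_finite L
    haveI : Infinite M := hMinf.to_subtype
    haveI : Finite N₁ := hfin
    obtain ⟨y, hy⟩ := Finite.exists_infinite_fiber
      (fun m : M => (⟨(m : L) * g * (m : L)⁻¹, hnorm m m.2 g hgN⟩ : N₁))
    obtain ⟨m₀, hm₀⟩ := (Set.infinite_coe_iff.mp hy).nonempty
    have e2 : ((m₀ : L) * g * (m₀ : L)⁻¹) = y := congrArg Subtype.val hm₀
    have e3 := hL.fcen g hg
    apply Set.infinite_coe_iff.mp hy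
    have e4 : Set.InjOn (fun m : M => (m₀ : L)⁻¹ * (m : L))
        ((fun m : M => (⟨(m : L) * g * (m : L)⁻¹, hnorm m m.2 g hgN⟩ : N₁)) ⁻¹' {y}) := by
      intro m _ m' _ hmm
      exact Subtype.ext (mul_left_cancel hmm)
    refine Set.Finite.of_finite_image (e3.subset ?_) e4
    rintro _ ⟨m, hm, rfl⟩
    have e5 : ((m : L) * g * (m : L)⁻¹) = y := congrArg Subtype.val hm
    show (m₀ : L)⁻¹ * (m : L) * g = g * ((m₀ : L)⁻¹ * (m : L))
    have e6 : (m : L) * g = (m₀ : L) * g * (m₀ : L)⁻¹ * (m : L) := by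
      rw [e2, ← e5, inv_mul_cancel_right]
    calc (m₀ : L)⁻¹ * (m : L) * g = (m₀ : L)⁻¹ * ((m : L) * g) := mul_assoc _ _ _
      _ = (m₀ : L)⁻¹ * ((m₀ : L) * g * (m₀ : L)⁻¹ * (m : L)) := by rw [e6]
      _ = g * ((m₀ : L)⁻¹ * (m : L)) := by group
  · -- `N₁` infinite: a finitely generated infinite subgroup
    have e1 : ∃ H : Subgroup L, H ≤ N₁ ∧ H.FG ∧ (H : Set L).Infinite := by
      by_contra hno
      apply hfin
      apply hL.nlfs N₁
      intro H hH hfg
      by_contra hHi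
      exact hno ⟨H, hH, hfg, hHi⟩
    obtain ⟨H, hH, hfg, hHi⟩ := e1
    obtain ⟨n, hn, horb⟩ := ns_point hns a H hfg hHi M hM hMf
    obtain ⟨c, hc, hcl⟩ := dns L α hα I hI H hfg
    have e2 := hcl _ horb
    have e3 : orb α H (α n (α a z)) ⊆ Cl α I z (α (n * a) z) := by
      rintro y ⟨h, hh, rfl⟩
      refine ⟨⟨h * n * a, by simp only [← mul_ap, mul_assoc]⟩, ?_⟩
      rw [mul_ap, h3]
      exact hH hh n hn
    have e4 := hI.ms_mono e3
    rw [cl_zero kra eqv hα hI z hinf] at e4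
    linarith

/-- points which are moved by finitely many given elements, and stay moved modulo a normal
subgroup of finite index -/
theorem claim (dns : DnsStmt.{u}) (kra : KraStmt.{u}) (eqv : EqvStmt.{u}) (hL : Good L)
    (hα : BDp α) (hI : IsMean I) (z : ℤ) (hns : NS α z)
    (hsep : ∀ z₁ z₂ : ℤ, (∃ g : L, α g z = z₁) → (∃ g : L, α g z = z₂) →
      kk α I z₁ z₂ ≠ DD α I z → ∃ N : Subgroup L, N.Normal ∧ N.FiniteIndex ∧
        ∀ g ∈ N, α g z₁ ≠ z₂)
    (hinf : ¬ ∃ F : Finset ℤ, ∀ g : L, ∃ f ∈ F, (∃ h : L, α h z = f) ∧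
      kk α I (α g z) f = DD α I z) (P : Finset L) (hP : ∀ g ∈ P, g ≠ 1) :
    ∃ a : L, ∃ M : Subgroup L, M.Normal ∧ M.FiniteIndex ∧
      ∀ g ∈ P, ∀ n ∈ M, α g (α a z) ≠ α n (α a z) := by
  classical
  obtain ⟨h1, h2, h3, h4, -, -, -⟩ := kra L α hα I hI
  induction P using Finset.induction_on with
  | empty =>
    exact ⟨1, ⊤, inferInstance, inferInstance, fun g hg => absurd hg (Finset.notMem_empty g)⟩
  | insert g P hgP ih =>
    obtain ⟨a, M, hM, hMf, hMP⟩ := ih fun p hp => hP p (Finset.mem_insert_of_mem hp)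
    obtain ⟨n, hn, hk⟩ := exists_split dns kra eqv hL hα hI z hns hinf a M hM hMf g
      (hP g (Finset.mem_insert_self g P))
    obtain ⟨N, hN, hNf, hNg⟩ := hsep (α n (α a z)) (α g (α n (α a z)))
      ⟨n * a, mul_ap _ _ _⟩ ⟨g * n * a, by simp only [← mul_ap, mul_assoc]⟩ (by
        rw [h3]
        exact hk)
    haveI := hM
    haveI := hMf
    haveI := hN
    haveI := hNf
    refine ⟨n * a, M ⊓ N, inferInstance, inferInstance, ?_⟩
    intro p hp m hm hcon
    rw [mul_ap] at hcon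
    rcases Finset.mem_insert.mp hp with rfl | hp
    · exact hNg m hm.2 hcon.symm
    · apply hMP p hp ((p * n * p⁻¹)⁻¹ * m * n)
      · exact M.mul_mem (M.mul_mem (M.inv_mem (hM.conj_mem n hn p)) hm.1) hn
      · have e1 : α ((p * n * p⁻¹)⁻¹ * m * n) (α a z) =
            α (p * n * p⁻¹)⁻¹ (α m (α n (α a z))) := by
          simp only [← mul_ap, mul_assoc]
        rw [e1, ← hcon]
        simp only [← mul_ap]
        congr 2
        group

/-- displacement of the elements of `S ^ n` -/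
theorem pow_disp (S : Finset L) (ρ : ℕ) (hρ : ∀ s ∈ S, ∀ j : ℤ, |α s j - j| ≤ ρ) (n : ℕ) :
    ∀ g ∈ (S : Set L) ^ n, ∀ j : ℤ, |α g j - j| ≤ ρ * n := by
  induction n with
  | zero =>
    intro g hg j
    rw [pow_zero, Set.mem_one] at hg
    rw [hg, one_ap]
    simp
  | succ n ih =>
    intro g hg j
    rw [pow_succ] at hg
    obtain ⟨a, ha, s, hs, rfl⟩ := Set.mem_mul.mp hg
    have e1 := hρ s (Finset.mem_coe.mp hs) j
    have e2 := ih a ha (α s j)
    rw [mul_ap]
    have e3 : α a (α s j) - j = (α a (α s j) - α s j) + (α s j - j) := by ring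
    rw [e3]
    have e4 := abs_add_le (α a (α s j) - α s j) (α s j - j)
    push_cast
    linarith

end Main

/-- **TYI** -/
theorem tyi (lin : LinStmt.{u}) (dns : DnsStmt.{u}) (kra : KraStmt.{u}) (eqv : EqvStmt.{u}) :
    TyiStmt.{u} := by
  classical
  intro L _ hL α hα I hI z hns hsep hinf
  -- a finite symmetric generating set
  obtain ⟨m₀, S₀, -, hS₀⟩ := Group.fg_iff'.mp hL.fg
  let S : Finset L := insert 1 (S₀ ∪ S₀.image fun s => s⁻¹)
  have hS1 : (1 : L) ∈ S := Finset.mem_insert_self _ _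
  have hSS : S₀ ⊆ S := fun s hs =>
    Finset.mem_insert_of_mem (Finset.mem_union_left _ hs)
  have hSinv : ∀ s ∈ S, s⁻¹ ∈ S := by
    intro s hs
    rcases Finset.mem_insert.mp hs with rfl | hs
    · rw [inv_one]
      exact hS1
    · apply Finset.mem_insert_of_mem
      rcases Finset.mem_union.mp hs with hs | hs
      · exact Finset.mem_union_right _ (Finset.mem_image_of_mem _ hs)
      · obtain ⟨t, ht, rfl⟩ := Finset.mem_image.mp hs
        rw [inv_inv]
        exact Finset.mem_union_left _ ht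
  have hSgen : Subgroup.closure (S : Set L) = ⊤ := by
    rw [eq_top_iff, ← hS₀]
    exact Subgroup.closure_mono (Finset.coe_subset.mpr hSS)
  -- a bound for the displacements
  choose R hR using hα
  let ρ : ℕ := ∑ s ∈ S, R s
  have hρ : ∀ s ∈ S, ∀ j : ℤ, |α s j - j| ≤ ρ := by
    intro s hs j
    refine (hR s j).trans ?_
    exact_mod_cast Finset.single_le_sum (fun i _ => Nat.zero_le (R i)) hs
  obtain ⟨n, hn⟩ := lin L hL.inf hL.tors S hS1 hSinv hSgen (2 * ρ + 1)
  -- the elements of the ball of radius `n`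
  have hfin : ((S : Set L) ^ n).Finite := by
    rw [← Finset.coe_pow]
    exact Finset.finite_toSet _
  let P : Finset L := ((hfin.toFinset ×ˢ hfin.toFinset).image fun q => q.1⁻¹ * q.2).erase 1
  obtain ⟨a, M, -, -, hM⟩ := claim dns kra eqv hL (fun g => ⟨R g, hR g⟩) hI z hns hsep hinf P
    (fun g hg => Finset.ne_of_mem_erase hg)
  have hinj : Set.InjOn (fun g => α g (α a z)) ((S : Set L) ^ n) := by
    intro g hg g' hg' h
    by_contra hne
    have e1 : g⁻¹ * g' ∈ P := by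
      apply Finset.mem_erase.mpr
      refine ⟨fun h => hne (inv_mul_eq_one.mp h), ?_⟩
      apply Finset.mem_image.mpr
      exact ⟨(g, g'), Finset.mem_product.mpr ⟨hfin.mem_toFinset.mpr hg,
        hfin.mem_toFinset.mpr hg'⟩, rfl⟩
    apply hM _ e1 1 M.one_mem
    have h' : α g (α a z) = α g' (α a z) := h
    rw [mul_ap, ← h', inv_ap, one_ap]
  have hmaps : Set.MapsTo (fun g => α g (α a z)) ((S : Set L) ^ n)
      (Set.Icc (α a z - ρ * n) (α a z + ρ * n)) := by
    intro g hg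
    have e1 := abs_le.mp (pow_disp S ρ hρ n g hg (α a z))
    show α a z - ρ * n ≤ α g (α a z) ∧ α g (α a z) ≤ α a z + ρ * n
    constructor <;> linarith [e1.1, e1.2]
  have hcard := Set.ncard_le_ncard_of_injOn _ hmaps hinj (Set.finite_Icc _ _)
  have e2 : (Set.Icc (α a z - ρ * n) (α a z + ρ * n)).ncard = 2 * (ρ * n) + 1 := by
    rw [← Finset.coe_Icc, Set.ncard_coe_finset, Int.card_Icc]
    have e3 : α a z + ρ * n + 1 - (α a z - ρ * n) = ((2 * (ρ * n) + 1 : ℕ) : ℤ) := by
      push_cast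
      ring
    rw [e3, Int.toNat_natCast]
  rw [e2] at hcard
  nlinarith

end Pool.Agent.FGT.H23
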